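import Pool.Agent.Helper34.CAR.GoalsC

/-!
# Packet CUT of project CAR: spectral cut-off in a C*-algebra
-/

set_option autoImplicit false

namespace Pool.Agent.Helper90.CAR

open Pool.Agent.Helper34.CAR

theorem cut : S_CUT := by
  intro A _ a l hl hlt
  let _ : PartialOrder A := CStarAlgebra.spectralOrder A
  have _ : StarOrderedRing A := CStarAlgebra.spectralOrderedRing A
  have hnt : Nontrivial A := by
    by_contra h
    rw [not_nontrivial_iff_subsingleton] at h
    rw [Subsingleton.elim (star a * a) 0, norm_zero] at hlt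
    linarith
  have hc : 0 ≤ star a * a := star_mul_self_nonneg a
  generalize star a * a = c at hc hlt ⊢
  have hsa : IsSelfAdjoint c := .of_nonneg hc
  have hf : Continuous (fun t : ℝ ↦ max 0 (t - l)) := by fun_prop
  have hr : Continuous (fun t : ℝ ↦ √(max 0 (t - l)) * max 0 (t - l)) := by fun_prop
  have hspec : ‖c‖ ∈ spectrum ℝ c := CStarAlgebra.norm_mem_spectrum_of_nonneg hc
  have hgs : star (cfc (fun t : ℝ ↦ max 0 (t - l)) c) = cfc (fun t : ℝ ↦ max 0 (t - l)) c :=
    (cfc_predicate (fun t : ℝ ↦ max 0 (t - l)) c).star_eq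
  have hrs : star (cfc (fun t : ℝ ↦ √(max 0 (t - l)) * max 0 (t - l)) c) =
      cfc (fun t : ℝ ↦ √(max 0 (t - l)) * max 0 (t - l)) c :=
    (cfc_predicate (fun t : ℝ ↦ √(max 0 (t - l)) * max 0 (t - l)) c).star_eq
  refine ⟨cfc (fun t : ℝ ↦ max 0 (t - l)) c,
    cfc (fun t : ℝ ↦ √(max 0 (t - l)) * max 0 (t - l)) c, ?_, hgs, ?_, ?_⟩
  · intro h0
    have h1 : cfc (fun t : ℝ ↦ max 0 (t - l)) c = cfc (fun _ : ℝ ↦ (0 : ℝ)) c := by
      rw [h0, cfc_const_zero]
    have h2 := (cfc_eq_cfc_iff_eqOn (R := ℝ) (p := IsSelfAdjoint) (ha := hsa)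
      (hf := hf.continuousOn) (hg := continuousOn_const)).1 h1 hspec
    have h3 : max 0 (‖c‖ - l) = 0 := h2
    have h4 : 0 < ‖c‖ - l := by linarith
    rw [max_eq_right h4.le] at h3
    exact h4.ne' h3
  · intro b hb
    have h : Commute c b := hb.symm
    exact (h.cfc_real _).symm
  · rw [hgs, hrs, Complex.coe_smul]
    have e1 : cfc (fun t : ℝ ↦ max 0 (t - l)) c * c * cfc (fun t : ℝ ↦ max 0 (t - l)) c =
        cfc (fun t : ℝ ↦ max 0 (t - l) * t * max 0 (t - l)) c := by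
      rw [cfc_mul (fun t : ℝ ↦ max 0 (t - l) * t) (fun t : ℝ ↦ max 0 (t - l)) c
        (by fun_prop) (by fun_prop), cfc_mul (fun t : ℝ ↦ max 0 (t - l)) (fun t : ℝ ↦ t) c
        (by fun_prop) (by fun_prop), cfc_id' ℝ c]
    have e2 : l • (cfc (fun t : ℝ ↦ max 0 (t - l)) c * cfc (fun t : ℝ ↦ max 0 (t - l)) c) =
        cfc (fun t : ℝ ↦ l • (max 0 (t - l) * max 0 (t - l))) c := by
      rw [cfc_smul l (fun t : ℝ ↦ max 0 (t - l) * max 0 (t - l)) c (by fun_prop),
        cfc_mul (fun t : ℝ ↦ max 0 (t - l)) (fun t : ℝ ↦ max 0 (t - l)) c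
        (by fun_prop) (by fun_prop)]
    rw [e1, e2, ← cfc_sub _ _ c (by fun_prop) (by fun_prop),
      ← cfc_mul _ _ c hr.continuousOn hr.continuousOn]
    refine cfc_congr ?_
    intro t _
    show max 0 (t - l) * t * max 0 (t - l) - l • (max 0 (t - l) * max 0 (t - l)) =
      √(max 0 (t - l)) * max 0 (t - l) * (√(max 0 (t - l)) * max 0 (t - l))
    have h0 : 0 ≤ max 0 (t - l) := le_max_left _ _
    have hs : √(max 0 (t - l)) * √(max 0 (t - l)) = max 0 (t - l) := Real.mul_self_sqrt h0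
    have e3 : √(max 0 (t - l)) * max 0 (t - l) * (√(max 0 (t - l)) * max 0 (t - l)) =
        (√(max 0 (t - l)) * √(max 0 (t - l))) * (max 0 (t - l) * max 0 (t - l)) := by ring
    rw [e3, hs, smul_eq_mul]
    rcases le_total t l with h | h
    · rw [max_eq_left (by linarith : t - l ≤ 0)]
      ring
    · rw [max_eq_right (by linarith : 0 ≤ t - l)]
      ring

end Pool.Agent.Helper90.CAR
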